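import Pool.Agent.Helper45.CF.GoalsA
import Pool.Agent.Helper91.CR.TZ
import Pool.Agent.Helper60.CR.TSZ

/-!
Packet CF-CONE (helper45, project CF): `S_CONE`, the ideal `K` of the mapping cone algebra.
-/

open scoped ComplexOrder ZeroAtInfty Topology ComplexConjugate
open TopologicalSpace Filter

namespace Pool.Agent.Helper28.CF

open Pool.Agent.Helper34.CAR Pool.Agent.Helper39.CR Pool.Agent.Helper45.CF Pool.Agent.Helper60.CR

noncomputable section

section defs

variable {M V W G : Type} [CStarAlgebra M] [CStarAlgebra V] [CStarAlgebra W] [CStarAlgebra G]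

/-- the kernel of `q`. -/
def kerSub28 (g : G →⋆ₐ[ℂ] M × C(unitInterval, V)) : NonUnitalStarSubalgebra ℂ G where
  carrier := {x | (g x).2 0 = 0}
  add_mem' {x y} hx hy := by
    have hx' : (g x).2 0 = 0 := hx
    have hy' : (g y).2 0 = 0 := hy
    show (g (x + y)).2 0 = 0
    rw [map_add, Prod.snd_add, ContinuousMap.add_apply, hx', hy', add_zero]
  zero_mem' := by
    show (g 0).2 0 = 0
    rw [map_zero g]
    rfl
  mul_mem' {x y} hx hy := by
    have hx' : (g x).2 0 = 0 := hx
    show (g (x * y)).2 0 = 0
    rw [map_mul, Prod.snd_mul, ContinuousMap.mul_apply, hx', zero_mul]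
  smul_mem' a x hx := by
    have hx' : (g x).2 0 = 0 := hx
    show (g (a • x)).2 0 = 0
    rw [map_smul, Prod.smul_snd, ContinuousMap.smul_apply, hx', smul_zero]
  star_mem' {x} hx := by
    have hx' : (g x).2 0 = 0 := hx
    show (g (star x)).2 0 = 0
    rw [map_star, Prod.snd_star, ContinuousMap.star_apply, hx', star_zero]

theorem mem_kerSub28 {g : G →⋆ₐ[ℂ] M × C(unitInterval, V)} {x : G} :
    x ∈ kerSub28 g ↔ (g x).2 0 = 0 := Iff.rfl

instance (g : G →⋆ₐ[ℂ] M × C(unitInterval, V)) :
    IsClosed ((kerSub28 g : NonUnitalStarSubalgebra ℂ G) : Set G) := by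
  have h : ((kerSub28 g : NonUnitalStarSubalgebra ℂ G) : Set G) = {x | (g x).2 0 = 0} := rfl
  rw [h]
  have hg : Continuous g := AddMonoidHomClass.continuous_of_bound g 1 fun x => by
    simpa using NonUnitalStarAlgHom.norm_apply_le g x
  exact isClosed_eq ((continuous_eval_const 0).comp (continuous_snd.comp hg)) continuous_const

/-- the inclusion of the kernel. -/
def kIncl28 (g : G →⋆ₐ[ℂ] M × C(unitInterval, V)) : ↥(kerSub28 g) →⋆ₙₐ[ℂ] G where
  toFun x := x.1
  map_smul' _ _ := rfl
  map_zero' := rfl
  map_add' _ _ := rfl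
  map_mul' _ _ := rfl
  map_star' _ := rfl

/-- the reparametrisation `t ↦ 1 - t`. -/
def sym28 : C(unitInterval, unitInterval) := ⟨unitInterval.symm, unitInterval.continuous_symm⟩

/-- the map to the cone. -/
def toCone28 (g : G →⋆ₐ[ℂ] M × C(unitInterval, V)) : ↥(kerSub28 g) →⋆ₙₐ[ℂ] Cone V where
  toFun x := ⟨(g x.1).2.comp sym28, by
    show (g x.1).2 (unitInterval.symm 1) = 0
    rw [unitInterval.symm_one]
    exact x.2⟩
  map_smul' a x := by
    apply Subtype.ext
    show (g (a • x.1)).2.comp sym28 = a • (g x.1).2.comp sym28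
    rw [map_smul]
    rfl
  map_zero' := by
    apply Subtype.ext
    show (g 0).2.comp sym28 = 0
    rw [map_zero g]
    rfl
  map_add' x y := by
    apply Subtype.ext
    show (g (x.1 + y.1)).2.comp sym28 = (g x.1).2.comp sym28 + (g y.1).2.comp sym28
    rw [map_add]
    rfl
  map_mul' x y := by
    apply Subtype.ext
    show (g (x.1 * y.1)).2.comp sym28 = (g x.1).2.comp sym28 * (g y.1).2.comp sym28
    rw [map_mul]
    rfl
  map_star' x := by
    apply Subtype.ext
    show (g (star x.1)).2.comp sym28 = star ((g x.1).2.comp sym28)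
    rw [map_star]
    rfl

end defs

theorem t : S_CONE := by
  intro K M Q V W G _ _ _ _ _ _ _ _ _ _ k π τ c ρ g hk hπ hker hc hρ hg hrange κ hκ T i
  -- the quotient map `q`
  have hw : ∀ x : G, ∃ w, (g x).2 0 = c w := fun x => ((hrange (g x)).1 ⟨x, rfl⟩).2
  choose qf hqf using hw
  let q : G →⋆ₙₐ[ℂ] W :=
    { toFun := qf
      map_smul' := fun a x => by
        apply hc
        rw [← hqf, map_smul, Prod.smul_snd, ContinuousMap.smul_apply, hqf]
        show a • c (qf x) = c (a • qf x)
        rw [map_smul]
      map_zero' := by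
        apply hc
        rw [← hqf, map_zero c, map_zero g]
        rfl
      map_add' := fun x y => by
        apply hc
        rw [← hqf, map_add, Prod.snd_add, ContinuousMap.add_apply, hqf, hqf, map_add]
      map_mul' := fun x y => by
        apply hc
        rw [← hqf, map_mul, Prod.snd_mul, ContinuousMap.mul_apply, hqf, hqf, map_mul]
      map_star' := fun x => by
        apply hc
        rw [← hqf, map_star, Prod.snd_star, ContinuousMap.star_apply, hqf, map_star] }
  have hq : ∀ x, (g x).2 0 = c (q x) := hqf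
  -- the splitting
  have hr0 : ∀ w : W, ∃ x : G, g x = (ρ w, ContinuousMap.const _ (c w)) := by
    intro w
    refine (hrange _).2 ⟨hρ w, w, rfl⟩
  choose rf hrf using hr0
  let r : W →⋆ₙₐ[ℂ] G :=
    { toFun := rf
      map_smul' := fun a x => by
        apply hg
        rw [hrf]
        show _ = g (a • rf x)
        rw [map_smul g, hrf, map_smul, map_smul]
        rfl
      map_zero' := by
        apply hg
        rw [hrf, map_zero g, map_zero, map_zero]
        rfl
      map_add' := fun x y => by
        apply hg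
        rw [hrf, map_add g, hrf, hrf, map_add, map_add]
        rfl
      map_mul' := fun x y => by
        apply hg
        rw [hrf, map_mul g, hrf, hrf, map_mul, map_mul]
        rfl
      map_star' := fun x => by
        apply hg
        rw [hrf, map_star g, hrf, map_star, map_star]
        rfl }
  have hr : ∀ w, g (r w) = (ρ w, ContinuousMap.const _ (c w)) := hrf
  have hqr : q.comp r = NonUnitalStarAlgHom.id ℂ W := by
    ext w
    apply hc
    show c (q (r w)) = c w
    rw [← hq, hr]
    rfl
  have hqs : Function.Surjective q := fun w => ⟨r w, DFunLike.congr_fun hqr w⟩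
  -- first extension
  have hki : Function.Injective (kIncl28 g) := Subtype.val_injective
  have hkk : ∀ a : G, q a = 0 ↔ a ∈ Set.range (kIncl28 g) := by
    intro a
    constructor
    · intro h
      refine ⟨⟨a, ?_⟩, rfl⟩
      rw [mem_kerSub28, hq, h, map_zero]
    · rintro ⟨x, rfl⟩
      apply hc
      rw [← hq, map_zero c]
      exact x.2
  haveI : SecondCountableTopology G := UniformSpace.secondCountable_of_separable G
  haveI : SeparableSpace ↥(kerSub28 g) := inferInstance
  have hsurj1 : Function.Surjective (T.map i (kIncl28 g)) := by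
    obtain ⟨d, -, h2, h3⟩ := T.exact i ↥(kerSub28 g) G W (kIncl28 g) q hki hqs hkk
    intro x
    refine (h2 x).1 ?_
    have h4 : T.map (i + 1) q (d x) = 0 := (h3 (d x)).2 ⟨x, rfl⟩
    have h5 : T.map (i + 1) r (T.map (i + 1) q (d x)) = d x := by
      rw [← T.map_comp (i + 1) W G W r q (d x), hqr, T.map_id]
    rw [← h5, h4, map_zero]
  -- second extension
  let κ' : K →⋆ₙₐ[ℂ] ↥(kerSub28 g) :=
    { toFun := fun x => ⟨κ x, by rw [mem_kerSub28, hκ]; rfl⟩
      map_smul' := fun a x => Subtype.ext (map_smul κ a x)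
      map_zero' := Subtype.ext (map_zero κ)
      map_add' := fun x y => Subtype.ext (map_add κ x y)
      map_mul' := fun x y => Subtype.ext (map_mul κ x y)
      map_star' := fun x => Subtype.ext (map_star κ x) }
  have hκ' : ∀ x, (κ' x).1 = κ x := fun x => rfl
  have hκi : Function.Injective κ' := by
    intro x y hxy
    apply hk
    have h1 : κ x = κ y := congrArg Subtype.val hxy
    have h2 : (k x, (0 : C(unitInterval, V))) = (k y, 0) := by rw [← hκ, ← hκ, h1]
    exact congrArg Prod.fst h2
  have hps : Function.Surjective (toCone28 g) := by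
    intro f
    obtain ⟨m, hm⟩ := hπ (τ ((f.1.comp sym28) 1))
    obtain ⟨x, hx⟩ := (hrange (m, f.1.comp sym28)).2 ⟨hm, 0, by
      rw [map_zero c]
      show f.1 (unitInterval.symm 0) = 0
      rw [unitInterval.symm_zero]
      exact f.2⟩
    have hx0 : x ∈ kerSub28 g := by
      rw [mem_kerSub28, hx]
      show f.1 (unitInterval.symm 0) = 0
      rw [unitInterval.symm_zero]
      exact f.2
    refine ⟨⟨x, hx0⟩, ?_⟩
    apply Subtype.ext
    show (g x).2.comp sym28 = f.1
    rw [hx]
    ext t
    show f.1 (unitInterval.symm (unitInterval.symm t)) = f.1 t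
    rw [unitInterval.symm_symm]
  have hpk : ∀ a : ↥(kerSub28 g), toCone28 g a = 0 ↔ a ∈ Set.range κ' := by
    intro a
    constructor
    · intro h
      have h1 : (g a.1).2.comp sym28 = 0 := congrArg Subtype.val h
      have h2 : (g a.1).2 = 0 := by
        ext t
        have h3 := DFunLike.congr_fun h1 (unitInterval.symm t)
        have h4 : (g a.1).2 (unitInterval.symm (unitInterval.symm t)) = 0 := h3
        rw [unitInterval.symm_symm] at h4
        exact h4
      have h5 := ((hrange (g a.1)).1 ⟨a.1, rfl⟩).1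
      rw [h2] at h5
      have h6 : π (g a.1).1 = 0 := by
        rw [h5]
        show τ 0 = 0
        exact map_zero τ
      obtain ⟨y, hy⟩ := (hker _).1 h6
      refine ⟨y, ?_⟩
      apply Subtype.ext
      rw [hκ']
      apply hg
      rw [hκ, hy, ← h2]
    · rintro ⟨x, rfl⟩
      apply Subtype.ext
      show (g (κ x)).2.comp sym28 = 0
      rw [hκ]
      rfl
  have hcone : T.Zero (Cone V) := cone_zero Pool.Agent.Helper91.CR.tz T
  have hsurj2 : Function.Surjective (T.map i κ') := by
    obtain ⟨d, -, h2, -⟩ := T.exact i K ↥(kerSub28 g) (Cone V) κ' (toCone28 g) hκi hps hpk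
    intro x
    exact (h2 x).1 (hcone (i + 1) _)
  -- composition
  intro x
  obtain ⟨y, hy⟩ := hsurj2 x
  obtain ⟨z, hz⟩ := hsurj1 y
  refine ⟨z, ?_⟩
  rw [← hy, ← hz, ← T.map_comp i K ↥(kerSub28 g) G κ' (kIncl28 g) z]
  congr 1

end

end Pool.Agent.Helper28.CF
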